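import Pool.Agent.W7.FH.N2

/-! Fermat's equation over number fields with a prime ideal of norm `2`: every solution has height
at least `2 ^ (n - d)`. -/

set_option autoImplicit false

namespace Pool.Agent.Results.MP_ef6a16_nt.NormTwoHeight

open Pool.Agent.W7.FH

theorem result (K : Type) [Field K] [NumberField K]
    (hK : ∃ P : Ideal (NumberField.RingOfIntegers K), P.IsPrime ∧ Ideal.absNorm P = 2)
    (n : ℕ) (hn : 2 ≤ n)
    (hp : ∀ p : ℕ, p.Prime → p ∣ n → 5 ≤ p ∧ 2 * Module.finrank ℚ K ≤ p)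
    (a b c : K) (ha : a ≠ 0) (hb : b ≠ 0) (hc : c ≠ 0) (h : a ^ n + b ^ n + c ^ n = 0) :
    (2 : ℝ) ^ n ≤ 2 ^ Module.finrank ℚ K * Height.mulHeight ![a, b, c] :=
  norm_two_main hK hn hp ha hb hc h

end Pool.Agent.Results.MP_ef6a16_nt.NormTwoHeight
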