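import Pool.Agent.W7.FH.Gm

/-! Fermat's equation over an arbitrary number field of degree `d`: for unramified primes
`p ≥ 4 d ^ 2` every solution with `a + b + c ≠ 0` has height at least `(p / 3) ^ d`; over a field
with a real place this holds for all solutions. -/

set_option autoImplicit false

namespace Pool.Agent.Results.MP_ef6a16_nt.PolynomialHeight

open Pool.Agent.W7.FH

theorem result (K : Type) [Field K] [NumberField K] (p : ℕ) (hp : p.Prime) (h5 : 5 ≤ p)
    (hpd : 4 * Module.finrank ℚ K ^ 2 ≤ p) (hd : ¬ (p : ℤ) ∣ NumberField.discr K)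
    (a b c : K) (ha : a ≠ 0) (hb : b ≠ 0) (hc : c ≠ 0) (h : a ^ p + b ^ p + c ^ p = 0)
    (hs : a + b + c ≠ 0 ∨ ∃ w : NumberField.InfinitePlace K, w.IsReal) :
    ((p : ℝ) / 3) ^ Module.finrank ℚ K ≤ Height.mulHeight ![a, b, c] := by
  refine grunert_main hp h5 hpd hd ha hb hc h ?_
  rcases hs with hs | ⟨w, hw⟩
  · exact hs
  · exact sum_ne_zero_of_real (by omega) (hp.odd_of_ne_two (by omega)) w hw ha hb hc h

end Pool.Agent.Results.MP_ef6a16_nt.PolynomialHeight
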