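import Pool.Agent.W7.FH.Tf

/-! Fermat's equation over number fields with at most two infinite places (unit rank at most one:
`ℚ`, quadratic, complex cubic and totally complex quartic fields): a solution is trivial or
exponentially large, uniformly in the field. -/

set_option autoImplicit false

namespace Pool.Agent.Results.MP_ef6a16_nt.UnitRankOne

open Pool.Agent.W7.FH

theorem result : ∃ P : ℕ, ∀ (K : Type) [Field K] [NumberField K],
    Fintype.card (NumberField.InfinitePlace K) ≤ 2 →
    ∀ p : ℕ, p.Prime → P ≤ p → ¬ (p : ℤ) ∣ NumberField.discr K →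
    ∀ a b c : K, a ≠ 0 → b ≠ 0 → c ≠ 0 → a ^ p + b ^ p + c ^ p = 0 →
    (2 : ℝ) ^ p ≤ 2 ^ Module.finrank ℚ K * Height.mulHeight ![a, b, c] ∨
      (a + b + c = 0 ∧ a ^ 2 + a * b + b ^ 2 = 0) :=
  ⟨P0, fun _ _ _ hcard _ hp hP hd _ _ _ ha hb hc h => two_places_main hcard hp hP hd ha hb hc h⟩

end Pool.Agent.Results.MP_ef6a16_nt.UnitRankOne
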